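import Pool.Agent.helper91.HZ.Spec

/-! Row BWD of project HZ (MP_2e0e07_nt) -/

set_option autoImplicit false

namespace Pool.Agent.HZ

open Matrix Polynomial Pool.Agent.GO Pool.Agent.AR Pool.Agent.RG MeasureTheory NumberField

universe u v

/-- representations with coefficients in a larger ring -/
def BWD_bc {Γ R S : Type} [Group Γ] [CommRing R] [CommRing S] (f : R →+* S) {n : ℕ}
    (V : Γ →* Matrix (Fin n) (Fin n) R) : Γ →* Matrix (Fin n) (Fin n) S where
  toFun g := (V g).map f
  map_one' := by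
    rw [map_one, Matrix.map_one f (map_zero f) (map_one f)]
  map_mul' g h := by
    rw [map_mul, Matrix.map_mul]

theorem BWD_char {Γ R S : Type} [Group Γ] [CommRing R] [CommRing S] (f : R →+* S) {n : ℕ}
    (V : Γ →* Matrix (Fin n) (Fin n) R) (g : Γ) (l : ℕ) :
    (BWD_bc f V g).charpoly.coeff l = f ((V g).charpoly.coeff l) := by
  change ((V g).map f).charpoly.coeff l = _
  rw [Matrix.charpoly_map, Polynomial.coeff_map]

theorem BWD_dir {Γ F : Type} [Group Γ] [Field F] {r : ℕ} {n : Fin r → ℕ}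
    (V : (i : Fin r) → Γ →* Matrix (Fin (n i)) (Fin (n i)) F) (g : Γ) (h : ∀ i, V i g = 1) :
    dirSum V g = 1 := by
  change Matrix.blockDiagonal' (fun i => V i g) = 1
  have h1 : (fun i => V i g) = (1 : (i : Fin r) → Matrix (Fin (n i)) (Fin (n i)) F) := by
    funext i
    exact h i
  rw [h1, Matrix.blockDiagonal'_one]

theorem BWD_root {m κ : Type} [Field κ] [Fintype m] [DecidableEq m] (x : κ)
    (h : (1 : Matrix m m κ).charpoly.IsRoot x) : x = 1 := by
  rw [Matrix.charpoly_one, Polynomial.IsRoot.def, Polynomial.eval_pow, Polynomial.eval_sub,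
    Polynomial.eval_X, Polynomial.eval_one] at h
  exact sub_eq_zero.1 (eq_zero_of_pow_eq_zero h)

theorem BWD (h1 : BW3_stmt.{v}) (h2 : RMU_stmt) (h3 : TWO_stmt) : BWD_stmt.{u, v} := by
  classical
  intro Γ Place E _ _ _ _ frob hd _ _ r n P Q F _ _ ι V ρ hV hρ U a b hU hAd J p κ _ _ _ φ V' ρ' hR
  choose TV hTV hTV' using hV
  obtain ⟨Tρ, hTρ, hTρ'⟩ := hρ
  obtain ⟨T₀, T, hT₀, hT, hTT, hcomp⟩ := hR.comp
  -- the normal core
  have hfin : Finite (Γ ⧸ U) := U.quotient_finite_of_isOpen hU
  have hfi : U.FiniteIndex := Subgroup.finiteIndex_of_finite_quotient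
  have hUc : IsClosed (U : Set Γ) := Subgroup.isClosed_of_isOpen U hU
  have hU0o : IsOpen (U.normalCore : Set Γ) :=
    Subgroup.isOpen_of_isClosed_of_finiteIndex _ (U.normalCore_isClosed hUc)
  have hU0i : U.normalCore.index ≠ 0 := Subgroup.FiniteIndex.index_ne_zero
  have key : ∀ j, (2 : κ j) ≠ 0 → adDegree (V' j) (ρ' j) ≤ U.normalCore.index := by
    intro j h20
    have hN1 : (kerV (V' j)).Normal := by
      unfold kerV
      exact Subgroup.normal_iInf_normal fun i => MonoidHom.normal_ker _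
    have hN : (kerV (V' j) ⊓ U.normalCore).Normal := Subgroup.normal_inf_normal _ _
    have hH : kerV (V' j) ⊓ U.normalCore ≤ adKer (ρ' j) := by
      refine h3 h20 (ρ' j) (hR.irr j) _ hN ?_
      intro u hu
      obtain ⟨huV, huU⟩ := hu
      have huV' : ∀ i, V' j i u = 1 := by
        intro i
        have h4 : u ∈ ⨅ i, (V' j i).ker := huV
        rw [Subgroup.mem_iInf] at h4
        exact h4 i
      let N : Subgroup Γ := U.normalCore ⊓ ((⨅ i, (V' j i).ker) ⊓ (ρ' j).ker)
      have hNo : IsOpen (N : Set Γ) := by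
        have e : (N : Set Γ) = (U.normalCore : Set Γ) ∩ ((⋂ i, ((V' j i).ker : Set Γ)) ∩ ((ρ' j).ker : Set Γ)) := by
          simp [N, Subgroup.coe_inf, Subgroup.coe_iInf]
        rw [e]
        exact hU0o.inter ((isOpen_iInter_of_finite fun i => hR.openV j i).inter (hR.openρ j))
      have hO : IsOpen {s : Γ | u⁻¹ * s ∈ N} := hNo.preimage (continuous_const_mul u⁻¹)
      obtain ⟨v, -, hvT, s, hs, -, hsO⟩ := hd {s : Γ | u⁻¹ * s ∈ N} (T j ∪ ((⋃ i, TV i) ∪ Tρ)) hO
        ⟨u, by
          change u⁻¹ * u ∈ N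
          rw [inv_mul_cancel]
          exact N.one_mem, Subgroup.mem_top u⟩
        ((hT j).union ((Set.finite_iUnion hTV).union hTρ))
      have hsN : u⁻¹ * s ∈ N := hsO
      obtain ⟨hs1, hs2, hs3⟩ := hsN
      have hvj : v ∉ T j := fun h => hvT (Or.inl h)
      have hvV : ∀ i, v ∉ TV i := fun i h => hvT (Or.inr (Or.inl (Set.mem_iUnion.2 ⟨i, h⟩)))
      have hvρ : v ∉ Tρ := fun h => hvT (Or.inr (Or.inr h))
      have hsU0 : s ∈ U.normalCore := by
        have h4 := U.normalCore.mul_mem huU hs1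
        rwa [mul_inv_cancel_left] at h4
      have hsU : s ∈ U := U.normalCore_le hsU0
      have hsV : ∀ i, V' j i s = 1 := by
        intro i
        have h4 : u⁻¹ * s ∈ ⨅ i, (V' j i).ker := hs2
        rw [Subgroup.mem_iInf] at h4
        have h5 : V' j i (u⁻¹ * s) = 1 := h4 i
        have h6 : V' j i (u * (u⁻¹ * s)) = 1 := by rw [map_mul, huV', h5, one_mul]
        rwa [mul_inv_cancel_left] at h6
      have hsρ : ρ' j s = ρ' j u := by
        have h5 : ρ' j (u⁻¹ * s) = 1 := hs3
        have h6 : ρ' j (u * (u⁻¹ * s)) = ρ' j u := by rw [map_mul, h5, mul_one]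
        rwa [mul_inv_cancel_left] at h6
      obtain ⟨hc1, hc2⟩ := hcomp j v hvj s hs
      let W : (i : Fin r) → Γ →* Matrix (Fin (n i)) (Fin (n i)) (κ j) :=
        fun i => BWD_bc (ZMod.castHom (dvd_refl (p j)) (κ j)) (V' j i)
      have hW : ∀ i, W i s = 1 := by
        intro i
        change (V' j i s).map _ = 1
        rw [hsV i, Matrix.map_one _ (map_zero _) (map_one _)]
      have hdW : dirSum W s = 1 := BWD_dir W s hW
      obtain ⟨α, β, γ, ε, hsum, hprod, hγ, hε, hrel⟩ := h1 ι (φ j) (dirSum V) ρ (dirSum W) (ρ' j)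
        (∏ i, P i v) (Q v) U a b hAd s hsU
        (by
          rw [charpoly_dirSum', Polynomial.map_prod]
          exact Finset.prod_congr rfl fun i _ => hTV' i v (hvV i) s hs)
        (hTρ' v hvρ s hs)
        (by
          rw [charpoly_dirSum']
          refine (h2 (φ j)).2 r (fun i => P i v) (fun i => (W i s).charpoly) ?_
          intro i l
          have h7 : (W i s).charpoly.coeff l = (ZMod.castHom (dvd_refl (p j)) (κ j)) ((V' j i s).charpoly.coeff l) :=
            BWD_char _ (V' j i) s l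
          rw [h7]
          exact hc1 i l)
        hc2
      rw [hdW] at hγ hε
      have hγ1 : ∏ l, γ l = 1 := Finset.prod_eq_one fun l _ => BWD_root _ (hγ l)
      have hε1 : ∏ l, ε l = 1 := Finset.prod_eq_one fun l _ => BWD_root _ (hε l)
      rw [hγ1, hε1, mul_one, mul_one] at hrel
      rw [← hsρ, ← hsum, ← hprod, hrel]
      ring
    have h4 : (adKer (ρ' j)).relIndex (kerV (V' j)) ∣ U.normalCore.index := by
      have h5 := Subgroup.relIndex_dvd_of_le_left (kerV (V' j)) hH
      rw [Subgroup.inf_relIndex_left] at h5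
      exact h5.trans (Subgroup.relIndex_dvd_index_of_normal _ _)
    exact Nat.le_of_dvd (Nat.pos_of_ne_zero hU0i) h4
  have hfin2 := hR.tends 2
  refine ⟨U.normalCore.index + ∑ j ∈ hfin2.toFinset, adDegree (V' j) (ρ' j), ?_⟩
  intro j
  by_cases hj : p j ≤ 2
  · have h5 : j ∈ hfin2.toFinset := by
      rw [Set.Finite.mem_toFinset]
      exact hj
    have h6 := Finset.single_le_sum (f := fun j => adDegree (V' j) (ρ' j)) (fun i _ => Nat.zero_le _) h5
    exact h6.trans (Nat.le_add_left _ _)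
  · have h5 : (2 : κ j) ≠ 0 := by
      intro h0
      have h6 : ((2 : ℕ) : κ j) = 0 := by exact_mod_cast h0
      rw [CharP.cast_eq_zero_iff (κ j) (p j)] at h6
      exact hj (Nat.le_of_dvd two_pos h6)
    exact (key j h5).trans (Nat.le_add_right _ _)

end Pool.Agent.HZ
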